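import Mathlib

/-!
# The local loop lemma for odd cycles

`R` is a symmetric relation on `A` compatible with an idempotent operation `f` of arity `n`, and the
neighbourhood of `a` absorbs `a`.  If a closed walk of odd length passes through `a`, then `R` has a
loop.
-/

namespace Q113.OddLoop

variable {A : Type*} {n : ℕ}

/-- The tuple `(u,…,u,v,w,…,w)` with `v` at position `m`. -/
def T (n m : ℕ) (u v w : A) : Fin n → A :=
  fun i => if i.1 < m then u else if i.1 = m then v else w

/-- The standing hypotheses of the local loop lemma. -/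
structure Hyp (R : A → A → Prop) (f : (Fin n → A) → A) (a : A) : Prop where
  symm : ∀ x y, R x y → R y x
  idem : ∀ x, f (fun _ => x) = x
  comp : ∀ x y : Fin n → A, (∀ i, R (x i) (y i)) → R (f x) (f y)
  abs : ∀ (j : Fin n) (b : Fin n → A), (∀ i, R a (b i)) → R a (f (Function.update b j a))

section Basic
variable {R : A → A → Prop} {f : (Fin n → A) → A} {a : A}

theorem Hyp.f1 (H : Hyp R f a) {m : ℕ} {u u' v v' w w' : A} (hu : R u u') (hv : R v v')
    (hw : R w w') : R (f (T n m u v w)) (f (T n m u' v' w')) := by
  apply H.comp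
  intro i
  unfold T
  split_ifs <;> assumption

theorem Hyp.closed (H : Hyp R f a) (x : Fin n → A) (hx : ∀ i, R a (x i)) : R a (f x) := by
  have := H.comp (fun _ => a) x hx
  rwa [H.idem] at this

theorem Hyp.f2 (H : Hyp R f a) {m : ℕ} {u v w : A} (hu : R a u) (hv : R a v)
    (hw : R a w) : R a (f (T n m u v w)) := by
  apply H.closed
  intro i
  unfold T
  split_ifs <;> assumption

theorem Hyp.f2a (H : Hyp R f a) {m : ℕ} (hm : m < n) {u w : A} (hu : R a u)
    (hw : R a w) : R a (f (T n m u a w)) := by
  have h := H.abs ⟨m, hm⟩ (T n m u u w) (by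
    intro i
    unfold T
    split_ifs <;> assumption)
  convert h using 2
  funext i
  by_cases hi : i = ⟨m, hm⟩
  · subst hi
    simp [T]
  · rw [Function.update_of_ne hi]
    have : i.1 ≠ m := fun h' => hi (Fin.ext h')
    simp [T, this]

end Basic

section Rec

variable (f : (Fin n → A) → A) (m K : ℕ) (a e : A) (g0 : ℕ → A) (X : ℕ → ℕ → A) (xp : ℕ → A)

/-- the walk of the `k`-th entry -/
def hh (y : ℕ → A) (k j : ℕ) : A :=
  if K ≤ k + j then y (k + j - K) else if Even (K - k - j) then a else e

/-- the columns -/
def col (y : ℕ → A) (j : ℕ) : ℕ → A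
  | 0 => g0 j
  | k + 1 => f (T n m (col y j k) (hh K a e y k j) (X k j))

/-- approximations of the sequence `y` -/
def st : ℕ → ℕ → A
  | 0 => fun _ => a
  | j + 1 => fun i => if i ≤ j then st j i else
      f (T n m (col f m K a e g0 X (st j) j K) (st j j) (xp j))

/-- the sequence `y` -/
def yy (j : ℕ) : A := st f m K a e g0 X xp j j

theorem st_eq (j i : ℕ) (h : i ≤ j) : st f m K a e g0 X xp j i = yy f m K a e g0 X xp i := by
  induction j with
  | zero =>
    obtain rfl : i = 0 := by omega
    rfl
  | succ j ih =>
    rcases Nat.lt_or_ge j i with h1 | h1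
    · obtain rfl : i = j + 1 := by omega
      rfl
    · have : st f m K a e g0 X xp (j + 1) i = st f m K a e g0 X xp j i := by
        simp [st, h1]
      rw [this, ih h1]

theorem col_congr (y1 y2 : ℕ → A) (j : ℕ) (h : ∀ i < j, y1 i = y2 i) (k : ℕ) (hk : k ≤ K) :
    col f m K a e g0 X y1 j k = col f m K a e g0 X y2 j k := by
  induction k with
  | zero => rfl
  | succ k ih =>
    have h1 : hh K a e y1 k j = hh K a e y2 k j := by
      unfold hh
      split_ifs with h2
      · exact h _ (by omega)
      · rfl
      · rfl
    simp only [col, ih (by omega), h1]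

theorem yy_zero : yy f m K a e g0 X xp 0 = a := rfl

theorem yy_succ (j : ℕ) : yy f m K a e g0 X xp (j + 1) =
    f (T n m (col f m K a e g0 X (yy f m K a e g0 X xp) j K) (yy f m K a e g0 X xp j) (xp j)) := by
  have h1 : yy f m K a e g0 X xp (j + 1) =
      f (T n m (col f m K a e g0 X (st f m K a e g0 X xp j) j K)
        (st f m K a e g0 X xp j j) (xp j)) := by
    unfold yy
    rw [st]
    simp
  rw [h1, col_congr f m K a e g0 X (st f m K a e g0 X xp j) (yy f m K a e g0 X xp) j
    (fun i hi => st_eq f m K a e g0 X xp j i hi.le) K le_rfl]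
  rfl

end Rec

/-- `Good R K a s` : `s 0` is a neighbour of `a` and `s` is a walk of length `K`. -/
structure Good (R : A → A → Prop) (K : ℕ) (a : A) (s : ℕ → A) : Prop where
  start : R a (s 0)
  walk : ∀ j < K, R (s j) (s (j + 1))

/-- The induction step. -/
theorem step {R : A → A → Prop} {f : (Fin n → A) → A} {a : A} (H : Hyp R f a) {m K : ℕ}
    (hm : m < n) {e : A} (he : R a e) (hK : Even K)
    (x : ℕ → A) (hx0 : x 0 = a) (hxK : x K = e) (hx : ∀ j < K, R (x j) (x (j + 1)))
    (X : ℕ → ℕ → A) (hX : ∀ k ≤ K, Good R K a (X k)) (hXK : ∀ k ≤ K, X k K = x k)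
    (g0 : ℕ → A) (hg : Good R K a g0) (hP : R (g0 K) (f (T n m (g0 K) a a))) :
    ∃ g : ℕ → A, Good R K a g ∧ R (g K) (f (T n (m + 1) (g K) a a)) := by
  classical
  set xp : ℕ → A := fun j => if Even j then e else a with hxp
  have hea : R e a := H.symm _ _ he
  have hxpw : ∀ j, R (xp j) (xp (j + 1)) := by
    intro j
    simp only [hxp, Nat.even_add_one]
    by_cases h1 : Even j
    · rw [if_pos h1, if_neg (not_not.mpr h1)]
      exact hea
    · rw [if_neg h1, if_pos h1]
      exact he
  have hxp0 : xp 0 = e := by simp [hxp]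
  have hxpK : xp K = e := by simp [hxp, hK]
  set y := yy f m K a e g0 X xp with hy
  set c := col f m K a e g0 X y with hc
  have hy0 : y 0 = a := rfl
  have hyS : ∀ j, y (j + 1) = f (T n m (c j K) (y j) (xp j)) := fun j =>
    yy_succ f m K a e g0 X xp j
  have hcS : ∀ j k, c j (k + 1) = f (T n m (c j k) (hh K a e y k j) (X k j)) := fun j k => rfl
  -- the walks `hh`
  have hhw : ∀ j, j < K → (∀ i < j, R (y i) (y (i + 1))) → ∀ k < K,
      R (hh K a e y k j) (hh K a e y k (j + 1)) := by
    intro j hj hyw k hk
    unfold hh
    rcases Nat.lt_or_ge (k + j) K with h1 | h1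
    · rcases Nat.lt_or_ge (k + (j + 1)) K with h2 | h2
      · have h3 : K - k - j = (K - k - (j + 1)) + 1 := by omega
        have h5 : ¬ K ≤ k + j := by omega
        have h6 : ¬ K ≤ k + (j + 1) := by omega
        rw [if_neg h5, if_neg h6, h3]
        by_cases h4 : Even (K - k - (j + 1))
        · rw [if_pos h4, if_neg (by rw [Nat.even_add_one]; exact not_not.mpr h4)]
          exact hea
        · rw [if_neg h4, if_pos (by rw [Nat.even_add_one]; exact h4)]
          exact he
      · have h3 : K - k - j = 1 := by omega
        have h4 : k + (j + 1) - K = 0 := by omega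
        have h5 : ¬ K ≤ k + j := by omega
        rw [if_neg h5, if_pos h2, h3, h4, if_neg (by decide), hy0]
        exact hea
    · rw [if_pos h1, if_pos (by omega)]
      have h3 : k + (j + 1) - K = (k + j - K) + 1 := by omega
      rw [h3]
      exact hyw _ (by omega)
  -- columns are walks
  have hcw : ∀ j, j < K → (∀ i < j, R (y i) (y (i + 1))) → ∀ k ≤ K,
      R (c j k) (c (j + 1) k) := by
    intro j hj hyw k
    induction k with
    | zero =>
      intro _
      exact hg.walk j hj
    | succ k ih =>
      intro hk
      rw [hcS, hcS]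
      exact H.f1 (ih (by omega)) (hhw j hj hyw k (by omega)) ((hX k (by omega)).walk j hj)
  -- starting points
  have hc0 : ∀ k ≤ K, R a (c 0 k) := by
    intro k
    induction k with
    | zero =>
      intro _
      exact hg.start
    | succ k ih =>
      intro hk
      rw [hcS]
      have h1 : hh K a e y k 0 = a ∨ hh K a e y k 0 = e := by
        unfold hh
        rw [if_neg (by omega)]
        split_ifs
        · exact Or.inl rfl
        · exact Or.inr rfl
      rcases h1 with h1 | h1
      · rw [h1]
        exact H.f2a hm (ih (by omega)) (hX k (by omega)).start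
      · rw [h1]
        exact H.f2 (ih (by omega)) he (hX k (by omega)).start
  -- `y` is a walk
  have hyw : ∀ j ≤ K, R (y j) (y (j + 1)) := by
    intro j
    induction j using Nat.strong_induction_on with
    | _ j ih =>
      intro hj
      cases j with
      | zero =>
        rw [hyS, hy0, hxp0]
        exact H.f2a hm (hc0 K le_rfl) he
      | succ j =>
        rw [hyS j, hyS (j + 1)]
        have h1 := hcw j (by omega) (fun i hi => ih i (by omega) (by omega)) K le_rfl
        rw [← hyS j]
        have h2 := ih j (by omega) (by omega)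
        have h3 := H.f1 (m := m) h1 h2 (hxpw j)
        rw [← hyS j] at h3
        exact h3
  -- the chain `G k = c K k`
  have hGS : ∀ k ≤ K, c K (k + 1) = f (T n m (c K k) (y k) (x k)) := by
    intro k hk
    rw [hcS, hXK k hk]
    congr 2
    unfold hh
    rw [if_pos (by omega)]
    congr 1
    omega
  have hGw : ∀ k ≤ K, R (c K k) (c K (k + 1)) := by
    intro k
    induction k with
    | zero =>
      intro h
      rw [hGS 0 h, hy0, hx0]
      exact hP
    | succ k ih =>
      intro h
      have h1 := H.f1 (m := m) (ih (by omega)) (hyw k (by omega)) (hx k (by omega))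
      rw [← hGS k (by omega), ← hGS (k + 1) h] at h1
      exact h1
  have hfin : c K (K + 1) = f (T n m (c K K) (y K) e) := by
    rw [hGS K le_rfl, hxK]
  have hyK : y (K + 1) = c K (K + 1) := by
    rw [hyS K, hxpK, hfin]
  refine ⟨fun j => c j (K + 1), ⟨?_, ?_⟩, ?_⟩
  · show R a (c 0 (K + 1))
    rw [hcS]
    have h1 : hh K a e y K 0 = a := by
      unfold hh
      rw [if_pos (by omega)]
      simpa using hy0
    rw [h1]
    exact H.f2a hm (hc0 K le_rfl) (hX K le_rfl).start
  · intro j hj
    show R (c j (K + 1)) (c (j + 1) (K + 1))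
    rw [hcS, hcS]
    refine H.f1 (hcw j hj (fun i hi => hyw i (by omega)) K le_rfl) ?_ ((hX K le_rfl).walk j hj)
    unfold hh
    rw [if_pos (by omega), if_pos (by omega)]
    have h1 : K + j - K = j := by omega
    have h2 : K + (j + 1) - K = j + 1 := by omega
    rw [h1, h2]
    exact hyw j (by omega)
  · show R (c K (K + 1)) (f (T n (m + 1) (c K (K + 1)) a a))
    have h0 : R (f (T n m (c K K) (y K) e)) (f (T n (m + 1) (c K (K + 1)) a a)) := by
      apply H.comp
      intro i
      unfold T
      rcases lt_trichotomy i.1 m with h1 | h1 | h1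
      · rw [if_pos h1, if_pos (by omega)]
        exact hGw K le_rfl
      · rw [if_neg (by omega), if_pos h1, if_pos (by omega), ← hyK]
        exact hyw K le_rfl
      · rw [if_neg (by omega), if_neg (by omega), if_neg (by omega)]
        split_ifs <;> exact hea
    rw [← hfin] at h0
    exact h0

/-- The abstract loop lemma. -/
theorem loop_of_walks {R : A → A → Prop} {f : (Fin n → A) → A} {a : A} (H : Hyp R f a) {K : ℕ}
    {e : A} (he : R a e) (hK : Even K)
    (x : ℕ → A) (hx0 : x 0 = a) (hxK : x K = e) (hx : ∀ j < K, R (x j) (x (j + 1)))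
    (X : ℕ → ℕ → A) (hX : ∀ k ≤ K, Good R K a (X k)) (hXK : ∀ k ≤ K, X k K = x k) :
    ∃ z, R z z := by
  have key : ∀ m ≤ n, ∃ g : ℕ → A, Good R K a g ∧ R (g K) (f (T n m (g K) a a)) := by
    intro m
    induction m with
    | zero =>
      intro _
      have hea : R e a := H.symm _ _ he
      refine ⟨fun j => if Even j then e else a, ⟨by simpa using he, ?_⟩, ?_⟩
      · intro j _
        simp only [Nat.even_add_one]
        by_cases h1 : Even j
        · rw [if_pos h1, if_neg (not_not.mpr h1)]
          exact hea
        · rw [if_neg h1, if_pos h1]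
          exact he
      · simp only [hK, if_true]
        have : T n 0 e a a = fun _ => a := by
          funext i
          simp [T]
        rw [this, H.idem]
        exact hea
    | succ m ih =>
      intro hm
      obtain ⟨g0, hg, hP⟩ := ih (by omega)
      exact step H (by omega) he hK x hx0 hxK hx X hX hXK g0 hg hP
  obtain ⟨g, _, hP⟩ := key n le_rfl
  refine ⟨g K, ?_⟩
  have : T n n (g K) a a = fun _ => g K := by
    funext i
    simp [T, i.2]
  rwa [this, H.idem] at hP

/-- There is a walk of length `t` from a neighbour of `a` to `v`. -/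
def Wk (R : A → A → Prop) (a : A) (t : ℕ) (v : A) : Prop :=
  ∃ w : ℕ → A, Good R t a w ∧ w t = v

theorem Wk.snoc {R : A → A → Prop} {a : A} {t : ℕ} {v v' : A} (h : Wk R a t v) (hv : R v v') :
    Wk R a (t + 1) v' := by
  obtain ⟨w, hw, hwt⟩ := h
  refine ⟨fun j => if j ≤ t then w j else v', ⟨by simpa using hw.start, ?_⟩, by simp⟩
  intro j hj
  rcases Nat.lt_or_ge j t with h1 | h1
  · simp only [h1.le, if_true, Nat.succ_le_of_lt h1]
    exact hw.walk j h1
  · obtain rfl : j = t := by omega
    simp [hwt, hv]

/-- **Local loop lemma for odd closed walks.** -/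
theorem loop_of_odd_walk {R : A → A → Prop} {f : (Fin n → A) → A} {a : A} (H : Hyp R f a)
    {K : ℕ} (hK : Even K) (x : ℕ → A) (hx0 : x 0 = a) (hx : ∀ j < K, R (x j) (x (j + 1)))
    (hxK : R (x K) a) : ∃ z, R z z := by
  have he : R a (x K) := H.symm _ _ hxK
  -- alternate walks
  have halt : ∀ t, (Even t → Wk R a t (x K)) ∧ (¬ Even t → Wk R a t a) := by
    intro t
    induction t with
    | zero => exact ⟨fun _ => ⟨fun _ => x K, ⟨he, by intro j hj; omega⟩, rfl⟩, fun h => by simp at h⟩
    | succ t ih =>
      constructor
      · intro h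
        rw [Nat.even_add_one] at h
        exact (ih.2 h).snoc he
      · intro h
        rw [Nat.even_add_one, not_not] at h
        exact (ih.1 h).snoc hxK
  have hup : ∀ t k, k ≤ K → Wk R a t (x 0) → Wk R a (t + k) (x k) := by
    intro t k
    induction k with
    | zero => intro _ h; exact h
    | succ k ih =>
      intro hk h
      exact (ih (by omega) h).snoc (hx k (by omega))
  have hdown : ∀ t k, k ≤ K → Wk R a t (x K) → Wk R a (t + k) (x (K - k)) := by
    intro t k
    induction k with
    | zero => intro _ h; exact h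
    | succ k ih =>
      intro hk h
      have h1 := hx (K - (k + 1)) (by omega)
      have h2 : K - (k + 1) + 1 = K - k := by omega
      rw [h2] at h1
      exact (ih (by omega) h).snoc (H.symm _ _ h1)
  have hall : ∀ k, ∃ w : ℕ → A, k ≤ K → (Good R K a w ∧ w K = x k) := by
    intro k
    by_cases hk : k ≤ K
    · have hW : Wk R a K (x k) := by
        by_cases hev : Even k
        · have h1 := hdown k (K - k) (by omega) ((halt k).1 hev)
          have h2 : k + (K - k) = K := by omega
          have h3 : K - (K - k) = k := by omega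
          rwa [h2, h3] at h1
        · have h4 : ¬ Even (K - k) := by
            rw [Nat.even_sub hk]
            tauto
          have h1 := hup (K - k) k hk (by rw [hx0]; exact (halt (K - k)).2 h4)
          have h2 : K - k + k = K := by omega
          rwa [h2] at h1
      obtain ⟨w, hw⟩ := hW
      exact ⟨w, fun _ => hw⟩
    · exact ⟨x, fun h => absurd h hk⟩
  choose X hXX using hall
  exact loop_of_walks H he hK x hx0 rfl hx X (fun k hk => (hXX k hk).1) (fun k hk => (hXX k hk).2)

end Q113.OddLoop
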